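import Pool.Graph.R_seed8.H981R2.Polyg

/-!
The generating function of the bridges of the square lattice diverges at the critical point, and
the Cauchy-Schwarz bound for the number of bridges by the number of polygons.
-/

namespace Pool.Agent.H19.Saw

open H981
open scoped ENNReal

lemma W0_le_prod_bb (z : ℝ≥0∞) (α : List ℕ) : W0 z α ≤ (α.map (bb z)).prod := by
  induction α with
  | nil => simp [W0]
  | cons A α ih =>
    rw [List.map_cons, List.prod_cons]
    calc W0 z (A :: α) ≤ ∑' β, (ind (IsBr A β) * z ^ β.length) * W0 z α := by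
          simp only [W0]
          apply ENNReal.tsum_le_tsum
          intro β
          rw [mul_assoc]
          gcongr
          exact Wf_le_W0 z α β
      _ = bb z A * W0 z α := by rw [ENNReal.tsum_mul_right]; rfl
      _ ≤ _ := by gcongr

theorem hh_sum_le (z : ℝ≥0∞) (N : ℕ) :
    ∑ n ∈ Finset.range N, hh (n + 1) * z ^ (n + 1) ≤ DD (bb z) N := by
  have h0 : ∑ n ∈ Finset.range N, hh (n + 1) * z ^ (n + 1) ≤
      ∑' ω : List St, ind (Saw ω ∧ HP ω ∧ 1 ≤ ω.length ∧ ω.length ≤ N) * z ^ ω.length := by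
    unfold hh
    simp_rw [← ENNReal.tsum_mul_right]
    rw [← Summable.tsum_finsetSum (fun _ _ => ENNReal.summable)]
    apply ENNReal.tsum_le_tsum
    intro ω
    by_cases h : Saw ω ∧ HP ω ∧ 1 ≤ ω.length ∧ ω.length ≤ N
    · rw [ind_of h, one_mul, Finset.sum_eq_single_of_mem (ω.length - 1)
        (Finset.mem_range.mpr (by omega))]
      · rw [show ω.length - 1 + 1 = ω.length by omega]
        calc _ ≤ 1 * z ^ ω.length := by
              gcongr
              exact ind_le_one _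
          _ = _ := one_mul _
      · intro m _ hm
        rw [ind_not (by omega), zero_mul]
    · refine le_trans (le_of_eq ?_) zero_le
      apply Finset.sum_eq_zero
      intro n hn
      rw [Finset.mem_range] at hn
      rw [ind_not, zero_mul]
      rintro ⟨h1, h2, h3⟩
      exact h ⟨h1, h2, by omega, by omega⟩
  refine h0.trans ?_
  have h1 : ∑' ω : List St, ind (Saw ω ∧ HP ω ∧ 1 ≤ ω.length ∧ ω.length ≤ N) * z ^ ω.length ≤
      ∑' q : (ℕ × List ℕ) × LL,
      ind (((1 ≤ q.1.1 ∧ q.1.1 ≤ N) ∧ Dec (q.1.1 - 1) q.1.2) ∧ (IsBr q.1.1 q.2.1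
        ∧ HPc q.1.2 q.2.1 q.2.2)) * z ^ q.2.2.length := by
    refine tsum_cover _ _ _ _ (fun q : (ℕ × List ℕ) × LL => q.2.2) ?_
    rintro ω ⟨h1, h2, h3, h4⟩
    obtain ⟨A, α, β, g1, g2, g3, g4, g5, g6⟩ := exists_unfold _ ω rfl h1 h2 (by
      rintro rfl; simp at h3)
    have g7 : A ≤ N := by omega
    exact ⟨((A, α), (β, ω)), ⟨⟨⟨g2, g7⟩, g3⟩, ⟨g1, g4⟩⟩, rfl, le_rfl⟩
  refine h1.trans ?_
  calc ∑' q : (ℕ × List ℕ) × LL,
      ind (((1 ≤ q.1.1 ∧ q.1.1 ≤ N) ∧ Dec (q.1.1 - 1) q.1.2) ∧ (IsBr q.1.1 q.2.1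
        ∧ HPc q.1.2 q.2.1 q.2.2)) * z ^ q.2.2.length
      = ∑' p : ℕ × List ℕ, ind ((1 ≤ p.1 ∧ p.1 ≤ N) ∧ Dec (p.1 - 1) p.2) * (
          ∑' β, ind (IsBr p.1 β) * ∑' ω, ind (HPc p.2 β ω) * z ^ ω.length) := by
        rw [ENNReal.tsum_prod']
        congr 1; ext p
        rw [ENNReal.tsum_prod', ← ENNReal.tsum_mul_left]
        congr 1; ext β
        rw [← ENNReal.tsum_mul_left, ← ENNReal.tsum_mul_left]
        congr 1; ext ω
        simp only
        rw [ind_and (_ ∧ _) (_ ∧ _), ind_and (IsBr p.1 β)]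
        ring
    _ ≤ ∑' p : ℕ × List ℕ, ind ((1 ≤ p.1 ∧ p.1 ≤ N) ∧ Dec (p.1 - 1) p.2) * W0 z (p.1 :: p.2) := by
        gcongr with p
        simp only [W0]
        gcongr with β
        exact HPc_sum z p.2 β
    _ ≤ ∑' α : List ℕ, ind (Dec N α) * (α.map (bb z)).prod := by
        refine tsum_inj _ _ _ _ (fun p : ℕ × List ℕ => p.1 :: p.2) ?_ ?_ ?_
        · rintro ⟨A, α⟩ ⟨A', α'⟩ - - h
          simp only [List.cons.injEq] at h
          rw [h.1, h.2]
        · rintro ⟨A, α⟩ ⟨⟨h2, h3⟩, h4⟩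
          exact ⟨h2, h3, h4⟩
        · rintro ⟨A, α⟩ -
          exact W0_le_prod_bb z _
    _ = _ := rfl

lemma prod_le_exp (f : ℕ → ℝ≥0∞) (h : ∑' n, f n ≠ ⊤) (N : ℕ) :
    ∏ B ∈ Finset.range N, (1 + f (B + 1)) ≤ ENNReal.ofReal (Real.exp (∑' n, f n).toReal) := by
  have hf : ∀ n, f n ≠ ⊤ := fun n => ENNReal.ne_top_of_tsum_ne_top h n
  have h1 : ∀ B, 1 + f (B + 1) ≤ ENNReal.ofReal (Real.exp (f (B + 1)).toReal) := by
    intro B
    have : 1 + f (B + 1) = ENNReal.ofReal ((f (B + 1)).toReal + 1) := by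
      rw [ENNReal.ofReal_add ENNReal.toReal_nonneg zero_le_one, ENNReal.ofReal_toReal (hf _),
        ENNReal.ofReal_one, add_comm]
    rw [this]
    exact ENNReal.ofReal_le_ofReal (Real.add_one_le_exp _)
  calc _ ≤ ∏ B ∈ Finset.range N, ENNReal.ofReal (Real.exp (f (B + 1)).toReal) :=
        Finset.prod_le_prod' fun B _ => h1 B
    _ = ENNReal.ofReal (∏ B ∈ Finset.range N, Real.exp (f (B + 1)).toReal) := by
        rw [ENNReal.ofReal_prod_of_nonneg (fun _ _ => (Real.exp_pos _).le)]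
    _ ≤ _ := by
        apply ENNReal.ofReal_le_ofReal
        rw [← Real.exp_sum]
        apply Real.exp_le_exp.mpr
        rw [← ENNReal.toReal_sum (fun B _ => hf _)]
        apply ENNReal.toReal_mono h
        calc ∑ B ∈ Finset.range N, f (B + 1) = ∑ B ∈ (Finset.range N).map
              ⟨fun n => n + 1, add_left_injective 1⟩, f B := by
              rw [Finset.sum_map]; rfl
          _ ≤ _ := ENNReal.sum_le_tsum _

/-- the critical weight -/
noncomputable def zc : ℝ≥0∞ := ENNReal.ofReal mu⁻¹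

lemma zc_ne_zero : zc ≠ 0 := by
  unfold zc
  have := inv_pos.mpr mu_pos
  simpa using this

lemma zc_ne_top : zc ≠ ⊤ := ENNReal.ofReal_ne_top

lemma one_le_cc_mul (n : ℕ) : 1 ≤ cc n * zc ^ n := by
  rw [← ofReal_cr', zc, ← ENNReal.ofReal_pow (inv_pos.mpr mu_pos).le,
    ← ENNReal.ofReal_mul (by linarith [one_le_cr' n])]
  rw [← ENNReal.ofReal_one]
  apply ENNReal.ofReal_le_ofReal
  have := mu_pow_le n
  have hm := mu_pos
  rw [inv_pow]
  calc (1 : ℝ) = mu ^ n * (mu ^ n)⁻¹ := by field_simp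
    _ ≤ _ := by gcongr

/-- **The critical bridge series diverges.** -/
theorem BB_zc : BB zc = ⊤ := by
  by_contra hB
  have hB' : ∑' a, bb zc a ≠ ⊤ := by rw [← BB_eq]; exact hB
  obtain ⟨E, hE⟩ : ∃ E : ℝ≥0∞, E = ENNReal.ofReal (Real.exp (∑' n, bb zc n).toReal) := ⟨_, rfl⟩
  have hEt : E ≠ ⊤ := by rw [hE]; exact ENNReal.ofReal_ne_top
  have hS : ∀ N, ∑ n ∈ Finset.range N, hh (n + 1) * zc ^ (n + 1) ≤ E := fun N =>
    ((hh_sum_le zc N).trans (DD_le _ N)).trans (by rw [hE]; exact prod_le_exp _ hB' N)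
  have hS' : ∀ N, ∑ n ∈ Finset.range (N + 1), hh n * zc ^ n ≤ E + 1 := by
    intro N
    rw [Finset.sum_range_succ']
    refine add_le_add (hS N) ?_
    rw [pow_zero, mul_one]
    exact hh_zero_le
  have key : ∀ M : ℕ, (M : ℝ≥0∞) * zc ≤ E * (E + 1) := by
    intro M
    calc (M : ℝ≥0∞) * zc = ∑ n ∈ Finset.range M, 1 * zc := by simp
      _ ≤ ∑ n ∈ Finset.range M, (cc n * zc ^ n) * zc := by
          gcongr with n
          exact one_le_cc_mul n
      _ ≤ ∑ n ∈ Finset.range M, ∑ k ∈ Finset.range (n + 1),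
            (hh (k + 1) * zc ^ (k + 1)) * (hh (n - k) * zc ^ (n - k)) := by
          gcongr with n
          calc (cc n * zc ^ n) * zc ≤
                ((∑ k ∈ Finset.range (n + 1), hh (k + 1) * hh (n - k)) * zc ^ n) * zc := by
                gcongr
                exact cc_le n
            _ = ∑ k ∈ Finset.range (n + 1), (hh (k + 1) * hh (n - k)) * zc ^ (n + 1) := by
                rw [mul_assoc, ← pow_succ, Finset.sum_mul]
            _ = _ := by
                apply Finset.sum_congr rfl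
                intro k hk
                rw [Finset.mem_range] at hk
                have e : n + 1 = (k + 1) + (n - k) := by omega
                rw [e, pow_add]
                have e2 : (k + 1 + (n - k)) - k - 1 = n - k := by omega
                ring_nf
      _ = ∑ p ∈ (Finset.range M).sigma (fun n => Finset.range (n + 1)),
            (hh (p.2 + 1) * zc ^ (p.2 + 1)) * (hh (p.1 - p.2) * zc ^ (p.1 - p.2)) := by
          rw [Finset.sum_sigma]
      _ ≤ ∑ q ∈ (Finset.range M) ×ˢ (Finset.range (M + 1)),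
            (hh (q.1 + 1) * zc ^ (q.1 + 1)) * (hh q.2 * zc ^ q.2) := by
          have hinj : Set.InjOn (fun p : (_ : ℕ) × ℕ => ((p.2, p.1 - p.2) : ℕ × ℕ))
              ((Finset.range M).sigma (fun n => Finset.range (n + 1)) : Set ((_ : ℕ) × ℕ)) := by
            rintro ⟨n, k⟩ h1 ⟨n', k'⟩ h2 h3
            simp only [Finset.coe_sigma, Set.mem_sigma_iff, Finset.mem_coe, Finset.mem_range] at h1 h2
            simp only [Prod.mk.injEq] at h3
            obtain ⟨rfl, h4⟩ := h3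
            have : n = n' := by omega
            subst this
            rfl
          rw [← Finset.sum_image (f := fun q : ℕ × ℕ =>
            (hh (q.1 + 1) * zc ^ (q.1 + 1)) * (hh q.2 * zc ^ q.2)) hinj]
          apply Finset.sum_le_sum_of_subset
          intro q hq
          rw [Finset.mem_image] at hq
          obtain ⟨⟨n, k⟩, h1, rfl⟩ := hq
          simp only [Finset.mem_sigma, Finset.mem_range] at h1
          simp only [Finset.mem_product, Finset.mem_range]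
          omega
      _ = (∑ k ∈ Finset.range M, hh (k + 1) * zc ^ (k + 1)) *
            ∑ j ∈ Finset.range (M + 1), hh j * zc ^ j := by
          rw [Finset.sum_mul_sum, Finset.sum_product]
      _ ≤ _ := by
          gcongr
          · exact hS M
          · exact hS' M
  have hfin : E * (E + 1) ≠ ⊤ := ENNReal.mul_ne_top hEt (by simp [hEt])
  have hz := zc_ne_zero
  have h2 : ∀ M : ℕ, (M : ℝ≥0∞) ≤ E * (E + 1) / zc := fun M => by
    rw [ENNReal.le_div_iff_mul_le (Or.inl hz) (Or.inl zc_ne_top)]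
    exact key M
  have h3 : E * (E + 1) / zc ≠ ⊤ := ENNReal.div_ne_top hfin hz
  obtain ⟨M, hM⟩ := ENNReal.exists_nat_gt h3
  exact absurd (h2 M) (not_le.mpr hM)

theorem not_summable_br : ¬ Summable (fun n : ℕ => br' n / mu ^ n) := by
  intro hs
  have h1 : BB zc = ∑' n : ℕ, ENNReal.ofReal (br' n / mu ^ n) := by
    have h2 : ∀ n : ℕ, ENNReal.ofReal (br' n / mu ^ n) =
        ∑' u : List St, ind (IsB u ∧ u.length = n) * zc ^ n := by
      intro n
      rw [ENNReal.tsum_mul_right, ← bn_eq, div_eq_mul_inv,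
        ENNReal.ofReal_mul (by linarith [one_le_br' n]), ofReal_br', zc,
        ← ENNReal.ofReal_pow (inv_pos.mpr mu_pos).le, inv_pow]
    simp_rw [h2]
    rw [ENNReal.tsum_comm]
    unfold BB
    congr 1; ext u
    rw [tsum_eq_single u.length]
    · congr 1; simp
    · intro n hn
      rw [ind_not, zero_mul]
      rintro ⟨-, h⟩
      exact hn h.symm
  have hnn : ∀ n : ℕ, 0 ≤ br' n / mu ^ n := fun n => by
    have := one_le_br' n
    have := mu_pos
    positivity
  rw [← ENNReal.ofReal_tsum_of_nonneg hnn hs, BB_zc] at h1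
  exact ENNReal.ofReal_ne_top h1.symm

/-! ### Cauchy-Schwarz -/

/-- the end points of the bridges -/
noncomputable def SS (n : ℕ) : Finset (ℤ × ℤ) := Finset.Icc (1 : ℤ) n ×ˢ Finset.Icc (-(n : ℤ)) n

lemma SS_card (n : ℕ) : (SS n).card = n * (2 * n + 1) := by
  unfold SS
  rw [Finset.card_product, Int.card_Icc, Int.card_Icc]
  congr 1
  · simp
  · omega

lemma bn_le_sum {n : ℕ} (hn : 1 ≤ n) : bn n ≤ ∑ q ∈ SS n, bah n q.1 q.2 := by
  unfold bah
  rw [bn_eq, ← Summable.tsum_finsetSum (fun _ _ => ENNReal.summable)]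
  apply ENNReal.tsum_le_tsum
  intro u
  by_cases hu : IsB u ∧ u.length = n
  · have h2 := hu.1.br.hp u (List.prefix_refl _) (by
      rintro rfl; simp at hu; omega)
    have h3 := dx_le_length u
    have h4 := abs_dy_le u
    rw [hu.2] at h3 h4
    rw [abs_le] at h4
    have hmem : (dx u, dy u) ∈ SS n := by
      unfold SS
      rw [Finset.mem_product, Finset.mem_Icc, Finset.mem_Icc]
      simp only
      omega
    calc ind (IsB u ∧ u.length = n)
        = ind ((IsB u ∧ u.length = n) ∧ (dx u = (dx u, dy u).1 ∧ dy u = (dx u, dy u).2)) * 1 := by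
          rw [mul_one]; congr 1; simp
      _ ≤ _ := Finset.single_le_sum (f := fun q : ℤ × ℤ =>
          ind ((IsB u ∧ u.length = n) ∧ (dx u = q.1 ∧ dy u = q.2)) * 1)
          (fun _ _ => zero_le) hmem
  · rw [ind_not hu]; exact zero_le

lemma sum_ab_be_le {n : ℕ} (hn : 1 ≤ n) :
    ∑ q ∈ SS n, ab n q.1 q.2 * be n q.1 q.2 ≤ lp (2 * (n + 1)) := by
  have h1 : ∀ q : ℤ × ℤ, ab n q.1 q.2 * be n q.1 q.2 =
      ∑' p : LL, ind (Abv n q.1 q.2 p.1 ∧ Blw n q.1 q.2 p.2) * 1 := by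
    intro q
    unfold ab be
    rw [tsum_mul_tsum' (fun w => ind (Abv n q.1 q.2 w) * 1) (fun w => ind (Blw n q.1 q.2 w) * 1)]
    congr 1; ext p
    rw [ind_and]; ring
  simp_rw [h1]
  rw [← Summable.tsum_finsetSum (fun _ _ => ENNReal.summable)]
  have h2 : ∀ p : LL, ∑ q ∈ SS n, ind (Abv n q.1 q.2 p.1 ∧ Blw n q.1 q.2 p.2) * 1 ≤
      ind (∃ q ∈ SS n, Abv n q.1 q.2 p.1 ∧ Blw n q.1 q.2 p.2) * 1 := by
    intro p
    by_cases h : ∃ q ∈ SS n, Abv n q.1 q.2 p.1 ∧ Blw n q.1 q.2 p.2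
    · rw [ind_of h]
      obtain ⟨q, hq, h3⟩ := h
      rw [Finset.sum_eq_single_of_mem q hq]
      · gcongr; exact ind_le_one _
      · intro q' _ hne
        rw [ind_not, zero_mul]
        rintro ⟨h4, -⟩
        apply hne
        have a1 := h3.1.2.1
        have a2 := h4.2.1
        exact Prod.ext (a2.1.symm.trans a1.1) (a2.2.symm.trans a1.2)
    · rw [ind_not h, zero_mul]
      apply le_of_eq
      apply Finset.sum_eq_zero
      intro q hq
      rw [ind_not, zero_mul]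
      exact fun h3 => h ⟨q, hq, h3⟩
  calc _ ≤ ∑' p : LL, ind (∃ q ∈ SS n, Abv n q.1 q.2 p.1 ∧ Blw n q.1 q.2 p.2) * 1 :=
        ENNReal.tsum_le_tsum h2
    _ ≤ ∑' f : ZMod (2 * (n + 1)) → ℤ × ℤ, ind (IsLoop (2 * (n + 1)) f) * 1 := by
        refine tsum_inj _ _ _ _ (fun p : LL => glue n p.1 p.2) ?_ ?_ ?_
        · rintro ⟨w₁, w₂⟩ ⟨v₁, v₂⟩ ⟨q, _, a1, a2⟩ ⟨q', _, b1, b2⟩ heq
          simp only at a1 a2 b1 b2 heq
          obtain ⟨e1, e2⟩ := glue_inj a1.1.2 a2.1.2 b1.1.2 b2.1.2 heq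
          rw [e1, e2]
        · rintro ⟨w₁, w₂⟩ ⟨q, hq, a1, a2⟩
          unfold SS at hq
          rw [Finset.mem_product, Finset.mem_Icc] at hq
          exact glue_loop hn (by omega) a1 a2
        · intro p _
          exact le_rfl
    _ = _ := by unfold H981.lp; simp

theorem bn_sq_le5 {n : ℕ} (hn : 1 ≤ n) :
    br' n ^ 2 ≤ 8 * ((n : ℝ) + 1) ^ 5 * PP (n + 1) := by
  have hlp := lp_ne_top n
  have hfin : ∀ q ∈ SS n, ab n q.1 q.2 * be n q.1 q.2 ≠ ⊤ := fun q hq =>
    ne_top_of_le_ne_top hlp ((Finset.single_le_sum (f := fun q : ℤ × ℤ => ab n q.1 q.2 * be n q.1 q.2)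
      (fun _ _ => zero_le) hq).trans (sum_ab_be_le hn))
  have hb : ∀ q ∈ SS n, bah n q.1 q.2 * bah n q.1 q.2 ≤
      (((n + 1) * (n + 1) : ℕ) : ℝ≥0∞) * (ab n q.1 q.2 * be n q.1 q.2) := by
    intro q _
    calc bah n q.1 q.2 * bah n q.1 q.2 ≤
          (((n + 1 : ℕ) : ℝ≥0∞) * ab n q.1 q.2) * (((n + 1 : ℕ) : ℝ≥0∞) * be n q.1 q.2) :=
          mul_le_mul' (bah_le_ab n q.1 q.2) (bah_le_be n q.1 q.2)
      _ = _ := by push_cast; ring
  have hbt : ∀ q ∈ SS n, bah n q.1 q.2 ≠ ⊤ := by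
    intro q hq h
    have := hb q hq
    rw [h] at this
    simp only [ENNReal.top_mul_top, top_le_iff] at this
    exact ENNReal.mul_ne_top (ENNReal.natCast_ne_top _) (hfin q hq) this
  obtain ⟨x, hx⟩ : ∃ x : ℤ × ℤ → ℝ, ∀ q, x q = (bah n q.1 q.2).toReal := ⟨_, fun _ => rfl⟩
  obtain ⟨y, hy⟩ : ∃ y : ℤ × ℤ → ℝ, ∀ q, y q = (ab n q.1 q.2 * be n q.1 q.2).toReal :=
    ⟨_, fun _ => rfl⟩
  have h1 : br' n ≤ ∑ q ∈ SS n, x q := by
    have := ENNReal.toReal_mono (by
      rw [ne_eq, ENNReal.sum_eq_top]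
      rintro ⟨q, hq, h⟩
      exact hbt q hq h) (bn_le_sum hn)
    rw [ENNReal.toReal_sum hbt] at this
    simp only [← hx] at this
    exact this
  have h2 : ∀ q ∈ SS n, x q ^ 2 ≤ ((n : ℝ) + 1) ^ 2 * y q := by
    intro q hq
    have := ENNReal.toReal_mono (ENNReal.mul_ne_top (ENNReal.natCast_ne_top _) (hfin q hq)) (hb q hq)
    rw [ENNReal.toReal_mul, ENNReal.toReal_mul, ← hx, ← hy, ENNReal.toReal_natCast] at this
    push_cast at this
    nlinarith
  have h3 : ∑ q ∈ SS n, y q ≤ (lp (2 * (n + 1))).toReal := by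
    have := ENNReal.toReal_mono hlp (sum_ab_be_le hn)
    rw [ENNReal.toReal_sum hfin] at this
    simp only [← hy] at this
    exact this
  have h0 : 0 ≤ br' n := by linarith [one_le_br' n]
  have hL : 0 ≤ (lp (2 * (n + 1))).toReal := ENNReal.toReal_nonneg
  have hn0 : (1 : ℝ) ≤ n := by exact_mod_cast hn
  rw [PP_eq]
  set L := (lp (2 * (n + 1))).toReal
  have h4 : 8 * ((n : ℝ) + 1) ^ 5 * (L / (4 * ((n : ℝ) + 1))) = 2 * ((n : ℝ) + 1) ^ 4 * L := by
    field_simp
    ring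
  rw [h4]
  calc br' n ^ 2 ≤ (∑ q ∈ SS n, x q) ^ 2 := by gcongr
    _ ≤ (SS n).card * ∑ q ∈ SS n, x q ^ 2 := sq_sum_le_card_mul_sum_sq
    _ ≤ (SS n).card * ∑ q ∈ SS n, ((n : ℝ) + 1) ^ 2 * y q := by
        gcongr with q hq
        exact h2 q hq
    _ = (SS n).card * (((n : ℝ) + 1) ^ 2 * ∑ q ∈ SS n, y q) := by rw [← Finset.mul_sum]
    _ ≤ (SS n).card * (((n : ℝ) + 1) ^ 2 * L) := by gcongr
    _ ≤ (2 * ((n : ℝ) + 1) ^ 2) * (((n : ℝ) + 1) ^ 2 * L) := by
        gcongr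
        rw [SS_card]
        push_cast
        nlinarith
    _ = _ := by ring

end Pool.Agent.H19.Saw
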